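import Pool.Agent.helper90.ZD.SpecB

set_option autoImplicit false

open Complex MeasureTheory

namespace Pool.Agent.ZD

open Pool.Agent.helper84.DM Pool.Agent.helper78.ED Pool.Agent.DH

theorem BH2_exp {x : ℕ} (hx : 1 ≤ x) (w : ℂ) :
    (x : ℂ) ^ w = Complex.exp (((Real.log x : ℝ) : ℂ) * w) := by
  have hx0 : (x : ℂ) ≠ 0 := by exact_mod_cast (by omega : x ≠ 0)
  rw [Complex.cpow_def_of_ne_zero hx0, Complex.natCast_log]

theorem BH2_sq (W : Finset ℝ) (c : ℝ → ℂ) (x y : ℕ) (hx : 1 ≤ x) (hy : 1 ≤ y) :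
    ((‖RW W c x y‖ ^ 2 : ℝ) : ℂ) = ∑ t ∈ W, ∑ t' ∈ W, c t * (starRingEnd ℂ) (c t') *
    ((x : ℂ) ^ (-(((t - t' : ℝ) : ℂ) * I)) *
      (starRingEnd ℂ) ((y : ℂ) ^ (-(((t - t' : ℝ) : ℂ) * I)))) := by
  have h0 : ((‖RW W c x y‖ ^ 2 : ℝ) : ℂ) = RW W c x y * (starRingEnd ℂ) (RW W c x y) := by
    rw [Complex.mul_conj']
    push_cast
    rfl
  rw [h0]
  unfold RW
  rw [map_sum, Finset.sum_mul_sum]
  refine Finset.sum_congr rfl fun t _ => Finset.sum_congr rfl fun t' _ => ?_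
  simp only [map_mul]
  rw [BH2_exp hx, BH2_exp hy, BH2_exp hx, BH2_exp hy, BH2_exp hx, BH2_exp hy,
    ← Complex.exp_conj, ← Complex.exp_conj, ← Complex.exp_conj]
  simp only [map_mul, map_neg, Complex.conj_ofReal, Complex.conj_I]
  have e1 : c t * (Complex.exp (((Real.log x : ℝ) : ℂ) * -(((t : ℝ) : ℂ) * I)) *
      Complex.exp (((Real.log y : ℝ) : ℂ) * (((t : ℝ) : ℂ) * I))) *
      ((starRingEnd ℂ) (c t') * (Complex.exp (((Real.log x : ℝ) : ℂ) * -(((t' : ℝ) : ℂ) * -I)) *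
      Complex.exp (((Real.log y : ℝ) : ℂ) * (((t' : ℝ) : ℂ) * -I)))) =
      c t * (starRingEnd ℂ) (c t') *
      Complex.exp (((Real.log x : ℝ) : ℂ) * -(((t : ℝ) : ℂ) * I) +
        ((Real.log y : ℝ) : ℂ) * (((t : ℝ) : ℂ) * I) +
        (((Real.log x : ℝ) : ℂ) * -(((t' : ℝ) : ℂ) * -I) +
        ((Real.log y : ℝ) : ℂ) * (((t' : ℝ) : ℂ) * -I))) := by
    rw [Complex.exp_add, Complex.exp_add, Complex.exp_add]
    ring
  have e2 : Complex.exp (((Real.log x : ℝ) : ℂ) * -(((t - t' : ℝ) : ℂ) * I)) *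
      Complex.exp (((Real.log y : ℝ) : ℂ) * -(((t - t' : ℝ) : ℂ) * -I)) =
      Complex.exp (((Real.log x : ℝ) : ℂ) * -(((t : ℝ) : ℂ) * I) +
        ((Real.log y : ℝ) : ℂ) * (((t : ℝ) : ℂ) * I) +
        (((Real.log x : ℝ) : ℂ) * -(((t' : ℝ) : ℂ) * -I) +
        ((Real.log y : ℝ) : ℂ) * (((t' : ℝ) : ℂ) * -I))) := by
    rw [← Complex.exp_add]
    congr 1
    push_cast
    ring
  rw [e1, e2]

theorem BH2_F (W : Finset ℝ) (c : ℝ → ℂ) (k L : ℕ) (hk : 1 ≤ k) :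
    ((∑ y ∈ IL L, ‖RW W c k y‖ ^ 2 : ℝ) : ℂ) =
    ∑ t ∈ W, ∑ t' ∈ W, c t * (starRingEnd ℂ) (c t') *
    ((k : ℂ) ^ (-(((t - t' : ℝ) : ℂ) * I))) * (starRingEnd ℂ) (PL (IL L) (t - t')) := by
  have hy : ∀ y ∈ IL L, 1 ≤ y := by
    intro y hy
    have := (Finset.mem_Ioc.1 hy).1
    omega
  rw [Complex.ofReal_sum, Finset.sum_congr rfl fun y hyy => BH2_sq W c k y hk (hy y hyy),
    Finset.sum_comm]
  refine Finset.sum_congr rfl fun t _ => ?_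
  rw [Finset.sum_comm]
  refine Finset.sum_congr rfl fun t' _ => ?_
  unfold PL
  rw [map_sum, Finset.mul_sum]
  refine Finset.sum_congr rfl fun y _ => ?_
  ring

theorem BH2_TRC (W : Finset ℝ) (c : ℝ → ℂ) (X : ℝ) (L : ℕ) :
    TRC W c X L = ((∑ k ∈ Finset.Icc 1 ⌊64 * X⌋₊, Phi ((k : ℝ) / X) *
      ∑ y ∈ IL L, ‖RW W c k y‖ ^ 2 : ℝ) : ℂ) := by
  rw [Complex.ofReal_sum]
  have e : ∀ k ∈ Finset.Icc 1 ⌊64 * X⌋₊, ((Phi ((k : ℝ) / X) *
      ∑ y ∈ IL L, ‖RW W c k y‖ ^ 2 : ℝ) : ℂ) = ∑ t ∈ W, ∑ t' ∈ W,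
      ((Phi ((k : ℝ) / X) : ℝ) : ℂ) * (c t * (starRingEnd ℂ) (c t') *
      ((k : ℂ) ^ (-(((t - t' : ℝ) : ℂ) * I))) * (starRingEnd ℂ) (PL (IL L) (t - t'))) := by
    intro k hk
    rw [Complex.ofReal_mul, BH2_F W c k L (Finset.mem_Icc.1 hk).1, Finset.mul_sum]
    refine Finset.sum_congr rfl fun t _ => ?_
    rw [Finset.mul_sum]
  rw [Finset.sum_congr rfl e, Finset.sum_comm]
  unfold TRC BX
  refine Finset.sum_congr rfl fun t _ => ?_
  rw [Finset.sum_comm]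
  refine Finset.sum_congr rfl fun t' _ => ?_
  rw [Finset.mul_sum, Finset.sum_mul]
  refine Finset.sum_congr rfl fun k _ => ?_
  ring

theorem BH2_grp (N L : ℕ) (D : ℝ) (F : ℕ → ℝ) (hF : ∀ k, 0 ≤ F k)
    (hD : ∀ k : ℕ, 1 ≤ k → k ≤ 32 * (N * L) → d k ≤ D) :
    ∑ n ∈ Finset.Ioc N (4 * N), ∑ x ∈ IL L, F (n * x)
      ≤ D * ∑ k ∈ Finset.Ioc (N * L) (32 * (N * L)), F k := by
  rw [← Finset.sum_product']
  have hmaps : ∀ p ∈ Finset.Ioc N (4 * N) ×ˢ IL L,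
      p.1 * p.2 ∈ Finset.Ioc (N * L) (32 * (N * L)) := by
    intro p hp
    obtain ⟨h1, h2⟩ := Finset.mem_product.1 hp
    obtain ⟨h1a, h1b⟩ := Finset.mem_Ioc.1 h1
    obtain ⟨h2a, h2b⟩ := Finset.mem_Ioc.1 h2
    refine Finset.mem_Ioc.2 ⟨Nat.mul_lt_mul'' h1a h2a, ?_⟩
    calc p.1 * p.2 ≤ 4 * N * (8 * L) := Nat.mul_le_mul h1b h2b
      _ = 32 * (N * L) := by ring
  rw [← Finset.sum_fiberwise_of_maps_to hmaps, Finset.mul_sum]
  refine Finset.sum_le_sum fun k hk => ?_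
  obtain ⟨hk1, hk2⟩ := Finset.mem_Ioc.1 hk
  have hk0 : 1 ≤ k := by omega
  have hcard : ((Finset.Ioc N (4 * N) ×ˢ IL L).filter fun p => p.1 * p.2 = k).card ≤
      k.divisors.card := by
    refine Finset.card_le_card_of_injOn (fun p => p.1) ?_ ?_
    · intro p hp
      have hp' := (Finset.mem_filter.1 hp).2
      exact Nat.mem_divisors.2 ⟨⟨p.2, hp'.symm⟩, by omega⟩
    · intro p hp q hq hpq
      obtain ⟨hp1, hp2⟩ := Finset.mem_filter.1 hp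
      obtain ⟨_, hq2⟩ := Finset.mem_filter.1 hq
      have h1 : 0 < p.1 := by
        have := (Finset.mem_Ioc.1 (Finset.mem_product.1 hp1).1).1
        omega
      have hpq' : p.1 = q.1 := hpq
      refine Prod.ext hpq' (Nat.eq_of_mul_eq_mul_left h1 ?_)
      rw [hp2, hpq', hq2]
  have hsum : ∑ p ∈ (Finset.Ioc N (4 * N) ×ˢ IL L).filter (fun p => p.1 * p.2 = k),
      F (p.1 * p.2) =
      (((Finset.Ioc N (4 * N) ×ˢ IL L).filter fun p => p.1 * p.2 = k).card : ℝ) * F k := by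
    rw [Finset.sum_congr rfl fun p hp => congrArg F (Finset.mem_filter.1 hp).2,
      Finset.sum_const, nsmul_eq_mul]
  rw [hsum]
  refine mul_le_mul_of_nonneg_right ?_ (hF k)
  refine le_trans ?_ (hD k hk0 hk2)
  unfold d
  exact_mod_cast hcard

theorem BH2 (h : BPH_stmt) : BH2_stmt := by
  intro W c N L D hN hL hD
  obtain ⟨hP0, hP1, -, -⟩ := h
  have hNL : 1 ≤ N * L := Nat.mul_pos hN hL
  have hNLr : (0 : ℝ) < (N : ℝ) * L := by
    have : (1 : ℝ) ≤ ((N * L : ℕ) : ℝ) := by exact_mod_cast hNL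
    push_cast at this
    linarith
  have hD0 : 0 ≤ D := by
    refine le_trans ?_ (hD 1 le_rfl (by omega))
    unfold d
    exact Nat.cast_nonneg _
  set F : ℕ → ℝ := fun k => ∑ y ∈ IL L, ‖RW W c k y‖ ^ 2 with hFdef
  have hF : ∀ k, 0 ≤ F k := fun k => Finset.sum_nonneg fun y _ => by positivity
  have e1 : (TRC W c ((N : ℝ) * L) L).re = ∑ k ∈ Finset.Icc 1 ⌊64 * ((N : ℝ) * L)⌋₊,
      Phi ((k : ℝ) / ((N : ℝ) * L)) * F k := by
    rw [BH2_TRC, Complex.ofReal_re]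
  have e2 : ⌊64 * ((N : ℝ) * L)⌋₊ = 64 * (N * L) := by
    rw [show (64 : ℝ) * ((N : ℝ) * L) = ((64 * (N * L) : ℕ) : ℝ) by push_cast; ring,
      Nat.floor_natCast]
  rw [e1, e2]
  refine (BH2_grp N L D F hF hD).trans (mul_le_mul_of_nonneg_left ?_ hD0)
  have hsub : Finset.Ioc (N * L) (32 * (N * L)) ⊆ Finset.Icc 1 (64 * (N * L)) := by
    intro k hk
    obtain ⟨h1, h2⟩ := Finset.mem_Ioc.1 hk
    exact Finset.mem_Icc.2 ⟨by omega, by omega⟩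
  calc ∑ k ∈ Finset.Ioc (N * L) (32 * (N * L)), F k
      = ∑ k ∈ Finset.Ioc (N * L) (32 * (N * L)), Phi ((k : ℝ) / ((N : ℝ) * L)) * F k := by
        refine Finset.sum_congr rfl fun k hk => ?_
        obtain ⟨h1, h2⟩ := Finset.mem_Ioc.1 hk
        have h1' : (N : ℝ) * L ≤ (k : ℝ) := by
          have : ((N * L : ℕ) : ℝ) ≤ (k : ℝ) := by exact_mod_cast h1.le
          push_cast at this
          exact this
        have h2' : (k : ℝ) ≤ 32 * ((N : ℝ) * L) := by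
          have : (k : ℝ) ≤ ((32 * (N * L) : ℕ) : ℝ) := by exact_mod_cast h2
          push_cast at this
          exact this
        rw [hP1 _ ((one_le_div hNLr).2 h1') ((div_le_iff₀ hNLr).2 h2'), one_mul]
    _ ≤ _ := Finset.sum_le_sum_of_subset_of_nonneg hsub fun k _ _ =>
        mul_nonneg (hP0 _).1 (hF k)

end Pool.Agent.ZD
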