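import Pool.Agent.helper90.ZD.SpecB

set_option autoImplicit false

open Complex MeasureTheory
open scoped ComplexOrder

namespace Pool.Agent.ZD

open Pool.Agent.helper84.DM Pool.Agent.helper78.ED Pool.Agent.DH

theorem BSP (h1 : BS1_stmt) (h2 : BS2_stmt) : BSP_stmt := by
  intro ι _ _ B G μ hB hG hμ hd
  obtain ⟨lam, g, hl, hg, htB, htB3, htG, hg2, htBG⟩ := h1 ι B G hB hG
  have e1 : ∑ i, lam i = (Fintype.card ι : ℝ) * μ := by
    have h : ((∑ i, lam i : ℝ) : ℂ) = (((Fintype.card ι : ℝ) * μ : ℝ) : ℂ) := by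
      rw [← htB, Matrix.trace]
      simp only [Matrix.diag_apply, hd, Finset.sum_const, Finset.card_univ, nsmul_eq_mul]
      push_cast
      ring
    exact_mod_cast h
  have e3 : (B * B * B).trace.re = ∑ i, lam i ^ 3 := by rw [htB3, Complex.ofReal_re]
  have eG : G.trace.re = ∑ i, g i := by rw [htG, Complex.ofReal_re]
  have eBG : (B * G).trace.re = ∑ i, lam i * g i := by rw [htBG, Complex.ofReal_re]
  obtain ⟨h0, h3⟩ := h2 ι lam g μ hμ hl hg e1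
  rw [e3, eG, eBG]
  refine ⟨h0, h3.trans ?_⟩
  have hs : 0 ≤ ∑ i, g i ^ 2 := Finset.sum_nonneg fun i _ => sq_nonneg _
  have hsg : 0 ≤ ∑ i, g i := Finset.sum_nonneg fun i _ => hg i
  have h4 : (∑ i, g i ^ 2) ^ (1 / 3 : ℝ) ≤ (∑ i, ∑ j, ‖G i j‖ ^ 2) ^ (1 / 3 : ℝ) :=
    Real.rpow_le_rpow hs hg2 (by norm_num)
  have h5 : 0 ≤ (4 * (∑ i, lam i ^ 3 - (Fintype.card ι : ℝ) * μ ^ 3)) ^ (1 / 3 : ℝ) *
      (∑ i, g i) ^ (1 / 3 : ℝ) :=
    mul_nonneg (Real.rpow_nonneg (by linarith) _) (Real.rpow_nonneg hsg _)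
  have h6 := mul_le_mul_of_nonneg_left h4 h5
  linarith

end Pool.Agent.ZD
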